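import Mathlib

/-!
# Commutators in `GL_3(Z)`: explicit families
-/

set_option autoImplicit false

namespace Pool.Agent.IntComm.Q3

open Matrix

/-- integral matrices of size three -/
abbrev M3 := Matrix (Fin 3) (Fin 3) ℤ

/-- `C` is a commutator of two matrices invertible over the integers -/
def IsCm (C : M3) : Prop := ∃ A B : M3ˣ, ((A * B * A⁻¹ * B⁻¹ : M3ˣ) : M3) = C

theorem exists_unit {M : M3} (h : M.det = 1 ∨ M.det = -1) : ∃ u : M3ˣ, (u : M3) = M := by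
  have : IsUnit M := (Matrix.isUnit_iff_isUnit_det M).2 (Int.isUnit_iff.2 h)
  exact this

/-- if `g X = C X g` then `C = g X g⁻¹ X⁻¹` -/
theorem of_rel {C g X : M3} (hg : g.det = 1 ∨ g.det = -1) (hX : X.det = 1 ∨ X.det = -1)
    (h : g * X = C * X * g) : IsCm C := by
  obtain ⟨u, hu⟩ := exists_unit hg
  obtain ⟨v, hv⟩ := exists_unit hX
  refine ⟨u, v, ?_⟩
  rw [← hu, ← hv] at h
  have e1 : ((u * v * u⁻¹ * v⁻¹ : M3ˣ) : M3) = (u : M3) * v * ((u⁻¹ : M3ˣ) : M3) *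
      ((v⁻¹ : M3ˣ) : M3) := by
    rw [Units.val_mul, Units.val_mul, Units.val_mul]
  rw [e1, h]
  calc C * (v : M3) * u * ((u⁻¹ : M3ˣ) : M3) * ((v⁻¹ : M3ˣ) : M3)
      = C * ((v : M3) * ((u : M3) * ((u⁻¹ : M3ˣ) : M3)) * ((v⁻¹ : M3ˣ) : M3)) := by
        simp only [mul_assoc]
    _ = C := by rw [Units.mul_inv, mul_one, Units.mul_inv, mul_one]

/-- commutators are closed under conjugation -/
theorem of_conj {C C' P : M3} (hP : P.det = 1 ∨ P.det = -1) (h : C * P = P * C')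
    (hC : IsCm C') : IsCm C := by
  obtain ⟨u, hu⟩ := exists_unit hP
  obtain ⟨A, B, hAB⟩ := hC
  refine ⟨u * A * u⁻¹, u * B * u⁻¹, ?_⟩
  have e1 : (u * A * u⁻¹) * (u * B * u⁻¹) * (u * A * u⁻¹)⁻¹ * (u * B * u⁻¹)⁻¹
      = u * (A * B * A⁻¹ * B⁻¹) * u⁻¹ := by group
  rw [e1, Units.val_mul, Units.val_mul, hAB, hu, ← h, ← hu, mul_assoc, Units.mul_inv, mul_one]

/-- the transvections `1 + k E₁₃` -/
theorem cm_e13 (k : ℤ) : IsCm !![1, 0, k; 0, 1, 0; 0, 0, 1] := by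
  refine of_rel (g := !![1, k, 0; 0, 1, 0; 0, 0, 1]) (X := !![1, 0, 0; 0, 1, 1; 0, 0, 1])
    (Or.inl ?_) (Or.inl ?_) ?_
  · simp [Matrix.det_fin_three]
  · simp [Matrix.det_fin_three]
  · ext i j
    fin_cases i <;> fin_cases j <;>
      simp [Matrix.mul_apply, Fin.sum_univ_three] <;> ring

theorem cm_e12 (k : ℤ) : IsCm !![1, k, 0; 0, 1, 0; 0, 0, 1] := by
  refine of_rel (g := !![1, 0, k; 0, 1, 0; 0, 0, 1]) (X := !![1, 0, 0; 0, 1, 0; 0, 1, 1])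
    (Or.inl ?_) (Or.inl ?_) ?_
  · simp [Matrix.det_fin_three]
  · simp [Matrix.det_fin_three]
  · ext i j
    fin_cases i <;> fin_cases j <;>
      simp [Matrix.mul_apply, Fin.sum_univ_three] <;> ring

/-- even superdiagonals -/
theorem cm_even (α μ b : ℤ) : IsCm !![1, 2 * α, b; 0, 1, 2 * μ; 0, 0, 1] := by
  refine of_rel (g := !![1, b - α * μ - 2 * α, 0; 0, -1, -μ; 0, 0, -1])
    (X := !![1, -α, 0; 0, 1, 1; 0, 0, -1]) (Or.inl ?_) (Or.inr ?_) ?_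
  · simp [Matrix.det_fin_three]
  · simp [Matrix.det_fin_three]
  · ext i j
    fin_cases i <;> fin_cases j <;>
      simp [Matrix.mul_apply, Fin.sum_univ_three] <;> ring

/-- the product of two primitive transvections -/
theorem cm_trans (a m b φ w u v α β : ℤ) (hb : b = φ + w + a * m) (h1 : u * φ + v * a = 1)
    (h2 : α * w + β * m = 1) : IsCm !![1, a, b; 0, 1, m; 0, 0, 1] := by
  refine of_rel (g := !![1, a, φ; 0, 1, 0; 0, 0, 1])
    (X := !![w, β * u, -(β * v); m, -(α * u), α * v; 0, -a, -φ]) (Or.inl ?_) (Or.inl ?_) ?_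
  · simp [Matrix.det_fin_three]
  · simp only [Matrix.det_fin_three, Matrix.of_apply, Matrix.cons_val', Matrix.cons_val_zero,
      Matrix.cons_val_one, Matrix.cons_val, Matrix.cons_val_fin_one]
    linear_combination (α * w + β * m) * h1 + h2
  · subst hb
    ext i j
    fin_cases i <;> fin_cases j <;>
      simp [Matrix.mul_apply, Fin.sum_univ_three] <;> ring

/-! ### eigenvalues `1, -1, -1` -/

theorem cm_neg00 (m : ℤ) : IsCm !![1, 0, 0; 0, -1, m; 0, 0, -1] := by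
  have h : IsCm !![-1, 0, m; 0, 1, 0; 0, 0, -1] := by
    refine of_rel (g := !![-1, -m, 0; 2, 1 + 2 * m, 0; 0, 2, 1])
      (X := !![1, 1, -m; 0, 1, 1; 0, 0, -1]) (Or.inr ?_) (Or.inr ?_) ?_
    · simp [Matrix.det_fin_three]
      ring
    · simp [Matrix.det_fin_three]
    · ext i j
      fin_cases i <;> fin_cases j <;>
        simp [Matrix.mul_apply, Fin.sum_univ_three] <;> ring
  refine of_conj (P := !![0, 1, 0; 1, 0, 0; 0, 0, 1]) (Or.inr ?_) ?_ h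
  · simp [Matrix.det_fin_three]
  · ext i j
    fin_cases i <;> fin_cases j <;>
      simp [Matrix.mul_apply, Fin.sum_univ_three] <;> ring

theorem cm_neg01e (μ : ℤ) : IsCm !![1, 0, 1; 0, -1, 2 * μ; 0, 0, -1] := by
  refine of_rel (g := !![1, -1, 0; 0, -1 - 2 * μ, -1 - μ; 0, 2, 1])
    (X := !![1, 0, 1; 0, 1, 1; 0, 0, -1]) (Or.inl ?_) (Or.inr ?_) ?_
  · simp [Matrix.det_fin_three]
    ring
  · simp [Matrix.det_fin_three]
  · ext i j
    fin_cases i <;> fin_cases j <;>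
      simp [Matrix.mul_apply, Fin.sum_univ_three] <;> ring

theorem cm_neg01o (μ : ℤ) : IsCm !![1, 0, 1; 0, -1, 2 * μ + 1; 0, 0, -1] := by
  refine of_rel (g := !![0, 1, 0; -1 - 2 * μ, 0, -1 - μ; 2, 0, 1])
    (X := !![1, 0, 1; 0, 1, 0; 0, 0, -1]) (Or.inr ?_) (Or.inr ?_) ?_
  · simp [Matrix.det_fin_three]
    ring
  · simp [Matrix.det_fin_three]
  · ext i j
    fin_cases i <;> fin_cases j <;>
      simp [Matrix.mul_apply, Fin.sum_univ_three] <;> ring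

theorem cm_neg10e (μ : ℤ) : IsCm !![1, 1, 0; 0, -1, 2 * μ; 0, 0, -1] := by
  refine of_rel (g := !![-1, 0, 0; 0, -1 - μ, -2 - μ; 0, 1, 1])
    (X := !![1, -1, -1; 0, 1, 2; 0, 0, -1]) (Or.inr ?_) (Or.inr ?_) ?_
  · simp [Matrix.det_fin_three]
  · simp [Matrix.det_fin_three]
  · ext i j
    fin_cases i <;> fin_cases j <;>
      simp [Matrix.mul_apply, Fin.sum_univ_three] <;> ring

theorem cm_neg10o (μ : ℤ) : IsCm !![1, 1, 0; 0, -1, 2 * μ + 1; 0, 0, -1] := by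
  refine of_rel (g := !![0, 1, 0; -μ - 1, μ * (μ + 1), 1; 1, -μ, 0])
    (X := !![1, 0, μ; 0, 1, 1; 0, 0, -1]) (Or.inl ?_) (Or.inr ?_) ?_
  · simp [Matrix.det_fin_three]
  · simp [Matrix.det_fin_three]
  · ext i j
    fin_cases i <;> fin_cases j <;>
      simp [Matrix.mul_apply, Fin.sum_univ_three] <;> ring

/-! ### elliptic blocks -/

theorem cm_ell1 : IsCm !![1, 0, 0; 0, 0, -1; 0, 1, 1] := by
  refine of_rel (g := !![1, 0, 0; 0, 0, 1; 0, 1, 0])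
    (X := !![-1, 0, 0; 0, 0, -1; 0, -1, 1]) ?_ ?_ ?_ <;> decide

theorem cm_ell00 : IsCm !![1, 0, 0; 0, 0, -1; 0, 1, 0] := by
  refine of_rel (g := !![0, 0, 1; -1, 0, 1; 1, 1, 0])
    (X := !![0, -1, 0; -1, 1, 0; 1, 0, -1]) ?_ ?_ ?_ <;> decide

theorem cm_ell01 : IsCm !![1, 1, 0; 0, 0, -1; 0, 1, 0] := by
  refine of_rel (g := !![1, 0, 0; 0, 0, -1; 0, -1, 0])
    (X := !![-1, -1, 0; 0, 1, 1; -1, 0, 0]) ?_ ?_ ?_ <;> decide

theorem cm_ellm0 : IsCm !![1, 0, 0; 0, 0, -1; 0, 1, -1] := by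
  refine of_rel (g := !![1, 0, 0; 0, 0, 1; 0, 1, 0])
    (X := !![-1, 0, 0; 0, 0, -1; 0, 1, -1]) ?_ ?_ ?_ <;> decide

theorem cm_ellm1 : IsCm !![1, 1, 0; 0, 0, -1; 0, 1, -1] := by
  refine of_rel (g := !![0, 1, 0; 0, -1, 1; 1, 0, 0])
    (X := !![0, -1, 0; -1, 0, -1; 0, 0, -1]) ?_ ?_ ?_ <;> decide

end Pool.Agent.IntComm.Q3
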