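import Pool.Agent.Work.MP_584b0c_al.Q3.Red

/-!
# Commutators in `GL_3(Z)`: the other quasi-unipotent matrices
-/

set_option autoImplicit false

namespace Pool.Agent.IntComm.Q3

open Matrix

/-- eigenvalues `1, -1, -1` -/
theorem neg (a b m : ℤ) : IsCm !![1, a, b; 0, -1, m; 0, 0, -1] := by
  have shear : ∀ a b w₁ w₂ : ℤ, IsCm !![1, a + 2 * w₁, b - m * w₁ + 2 * w₂; 0, -1, m; 0, 0, -1] →
      IsCm !![1, a, b; 0, -1, m; 0, 0, -1] := by
    intro a b w₁ w₂ h
    refine of_conj (P := !![1, w₁, w₂; 0, 1, 0; 0, 0, 1]) (Or.inl ?_) ?_ h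
    · simp [Matrix.det_fin_three]
    · ext i j
      fin_cases i <;> fin_cases j <;>
        simp [Matrix.mul_apply, Fin.sum_univ_three] <;> ring
  have h1 : ∀ b : ℤ, IsCm !![1, 1, b; 0, -1, m; 0, 0, -1] := by
    intro b
    refine of_conj (P := !![1, 0, 0; 0, 1, -b; 0, 0, 1])
      (C' := !![1, 1, 0; 0, -1, m; 0, 0, -1]) (Or.inl ?_) ?_ ?_
    · simp [Matrix.det_fin_three]
    · ext i j
      fin_cases i <;> fin_cases j <;>
        simp [Matrix.mul_apply, Fin.sum_univ_three] <;> ring
    · rcases Int.even_or_odd' m with ⟨μ, h | h⟩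
      · rw [h]; exact cm_neg10e μ
      · rw [h]; exact cm_neg10o μ
  have h0 : ∀ b : ℤ, IsCm !![1, 0, b; 0, -1, m; 0, 0, -1] := by
    intro b
    rcases Int.even_or_odd' b with ⟨k, h | h⟩
    · refine shear 0 b 0 (-k) ?_
      rw [show b - m * 0 + 2 * -k = 0 by rw [h]; ring, show (0 : ℤ) + 2 * 0 = 0 by ring]
      exact cm_neg00 m
    · refine shear 0 b 0 (-k) ?_
      rw [show b - m * 0 + 2 * -k = 1 by rw [h]; ring, show (0 : ℤ) + 2 * 0 = 0 by ring]
      rcases Int.even_or_odd' m with ⟨μ, h | h⟩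
      · rw [h]; exact cm_neg01e μ
      · rw [h]; exact cm_neg01o μ
  rcases Int.even_or_odd' a with ⟨k, h | h⟩
  · refine shear a b (-k) 0 ?_
    rw [show a + 2 * -k = 0 by rw [h]; ring]
    exact h0 _
  · refine shear a b (-k) 0 ?_
    rw [show a + 2 * -k = 1 by rw [h]; ring]
    exact h1 _

/-- elliptic blocks in companion form -/
theorem ell (t a b : ℤ) (ht : t = 1 ∨ t = 0 ∨ t = -1) :
    IsCm !![1, a, b; 0, 0, -1; 0, 1, t] := by
  have shear : ∀ k : ℤ, IsCm !![1, a - b - (2 - t) * k, 0; 0, 0, -1; 0, 1, t] →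
      IsCm !![1, a, b; 0, 0, -1; 0, 1, t] := by
    intro k h
    refine of_conj (P := !![1, -b - (1 - t) * k, k; 0, 1, 0; 0, 0, 1]) (Or.inl ?_) ?_ h
    · simp [Matrix.det_fin_three]
    · ext i j
      fin_cases i <;> fin_cases j <;>
        simp [Matrix.mul_apply, Fin.sum_univ_three] <;> ring
  rcases ht with rfl | rfl | rfl
  · refine shear (a - b) ?_
    rw [show a - b - (2 - 1) * (a - b) = 0 by ring]
    exact cm_ell1
  · rcases Int.even_or_odd' (a - b) with ⟨k, h | h⟩
    · refine shear k ?_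
      rw [show a - b - (2 - 0) * k = 0 by rw [h]; ring]
      exact cm_ell00
    · refine shear k ?_
      rw [show a - b - (2 - 0) * k = 1 by rw [h]; ring]
      exact cm_ell01
  · have h3 := Int.emod_add_mul_ediv (a - b) 3
    have h4 : (a - b) % 3 = 0 ∨ (a - b) % 3 = 1 ∨ (a - b) % 3 = 2 := by omega
    rcases h4 with h | h | h
    · refine shear ((a - b) / 3) ?_
      rw [show a - b - (2 - -1) * ((a - b) / 3) = 0 by linear_combination h - h3]
      exact cm_ellm0
    · refine shear ((a - b) / 3) ?_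
      rw [show a - b - (2 - -1) * ((a - b) / 3) = 1 by linear_combination h - h3]
      exact cm_ellm1
    · refine shear ((a - b) / 3 + 1) ?_
      rw [show a - b - (2 - -1) * ((a - b) / 3 + 1) = -1 by linear_combination h - h3]
      refine of_conj (P := !![1, 0, 0; 0, -1, 0; 0, 0, -1]) (Or.inl ?_) ?_ cm_ellm1
      · simp [Matrix.det_fin_three]
      · ext i j
        fin_cases i <;> fin_cases j <;>
          simp [Matrix.mul_apply, Fin.sum_univ_three] <;> ring

/-- elliptic blocks -/
theorem elliptic (r₁ r₂ p q r s : ℤ) (hdet : p * s - q * r = 1)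
    (ht : p + s = 1 ∨ p + s = 0 ∨ p + s = -1) : IsCm !![1, r₁, r₂; 0, p, q; 0, r, s] := by
  obtain ⟨x, y, hxy⟩ := form r.natAbs r (s - p) (-q) le_rfl (by
    rcases ht with h | h | h
    · left; linear_combination (p + s + 1) * h - 4 * hdet
    · right; linear_combination (p + s) * h - 4 * hdet
    · left; linear_combination (p + s - 1) * h - 4 * hdet)
  refine of_conj (P := !![1, 0, 0; 0, x, p * x + q * y; 0, y, r * x + s * y]) ?_ ?_
    (ell (p + s) (r₁ * x + r₂ * y) (r₁ * (p * x + q * y) + r₂ * (r * x + s * y)) ht)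
  · rcases hxy with h | h
    · left
      simp only [Matrix.det_fin_three, Matrix.of_apply, Matrix.cons_val', Matrix.cons_val_zero,
        Matrix.cons_val_one, Matrix.cons_val, Matrix.cons_val_fin_one]
      linear_combination h
    · right
      simp only [Matrix.det_fin_three, Matrix.of_apply, Matrix.cons_val', Matrix.cons_val_zero,
        Matrix.cons_val_one, Matrix.cons_val, Matrix.cons_val_fin_one]
      linear_combination h
  · ext i j
    fin_cases i <;> fin_cases j <;>
      simp [Matrix.mul_apply, Fin.sum_univ_three]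
    · linear_combination (-x) * hdet
    · linear_combination (-y) * hdet

end Pool.Agent.IntComm.Q3
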