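import Pool.Agent.Work.MP_584b0c_al.Q3.Uni
import Pool.Agent.Work.MP_584b0c_al.Q3.Neg

/-!
# Commutators in `GL_3(Z)`: matrices with all eigenvalues of modulus one
-/

set_option autoImplicit false

namespace Pool.Agent.IntComm.Q3

open Matrix Polynomial

theorem unit_mul_conj {z : ℂ} (h : ‖z‖ = 1) : z * (starRingEnd ℂ) z = 1 := by
  rw [Complex.mul_conj, Complex.normSq_eq_norm_sq, h]
  simp

theorem trace_bound {x y : ℂ} {T : ℤ} (hx : ‖x‖ = 1) (hy : ‖y‖ = 1) (h : x + y + 1 = (T : ℂ)) :
    -1 ≤ T ∧ T ≤ 3 := by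
  have h1 : ‖((T - 1 : ℤ) : ℂ)‖ ≤ 2 := by
    have : ((T - 1 : ℤ) : ℂ) = x + y := by
      push_cast
      rw [← h]; ring
    rw [this]
    calc ‖x + y‖ ≤ ‖x‖ + ‖y‖ := norm_add_le x y
      _ = 2 := by rw [hx, hy]; norm_num
  rw [Complex.norm_intCast] at h1
  have h2 : |T - 1| ≤ 2 := by exact_mod_cast h1
  rw [abs_le] at h2
  constructor
  · linarith [h2.1]
  · linarith [h2.2]

theorem spectral (C : M3) (hdet : C.det = 1)
    (h : ∀ z : ℂ, (C.map (fun x : ℤ => (x : ℂ))).charpoly.IsRoot z → ‖z‖ = 1) :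
    (C - 1).det = 0 ∧ -1 ≤ C.trace ∧ C.trace ≤ 3 := by
  set CC : Matrix (Fin 3) (Fin 3) ℂ := C.map (fun x : ℤ => (x : ℂ)) with hCC
  have hCC' : CC = (Int.castRingHom ℂ).mapMatrix C := rfl
  have hmon : CC.charpoly.Monic := Matrix.charpoly_monic CC
  have hspl : CC.charpoly.Splits := IsAlgClosed.splits _
  have hcard : Multiset.card CC.charpoly.roots = 3 := by
    rw [← hspl.natDegree_eq_card_roots, Matrix.charpoly_natDegree_eq_dim]
    rfl
  have hd : CC.det = 1 := by
    rw [hCC', ← RingHom.map_det, hdet, map_one]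
  have ht : CC.trace = (C.trace : ℂ) := by
    rw [hCC, Matrix.trace_fin_three, Matrix.trace_fin_three]
    simp only [Matrix.map_apply]
    push_cast
    ring
  have hprod := Matrix.det_eq_prod_roots_charpoly CC
  have hsum := Matrix.trace_eq_sum_roots_charpoly CC
  have hev := hspl.eval_eq_prod_roots_of_monic hmon 1
  rw [Matrix.eval_charpoly] at hev
  have hn : ∀ z ∈ CC.charpoly.roots, ‖z‖ = 1 := fun z hz => h z (isRoot_of_mem_roots hz)
  obtain ⟨x, y, z, hxyz⟩ := Multiset.card_eq_three.1 hcard
  rw [hxyz] at hprod hsum hev hn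
  rw [hd] at hprod
  rw [ht] at hsum
  simp only [Multiset.insert_eq_cons, Multiset.prod_cons, Multiset.prod_singleton,
    Multiset.sum_cons, Multiset.sum_singleton, Multiset.map_cons, Multiset.map_singleton]
    at hprod hsum hev
  have hx : ‖x‖ = 1 := hn x (by simp)
  have hy : ‖y‖ = 1 := hn y (by simp)
  have hz : ‖z‖ = 1 := hn z (by simp)
  have cx := unit_mul_conj hx
  have cy := unit_mul_conj hy
  have cz := unit_mul_conj hz
  have hconj : (starRingEnd ℂ) x + ((starRingEnd ℂ) y + (starRingEnd ℂ) z) = (C.trace : ℂ) := by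
    rw [← map_add, ← map_add, ← hsum]
    exact map_intCast (starRingEnd ℂ) _
  have e2 : x * y + x * z + y * z = (C.trace : ℂ) := by
    linear_combination hconj + ((starRingEnd ℂ) x + (starRingEnd ℂ) y + (starRingEnd ℂ) z) *
      (-hprod) - y * z * cx - x * z * cy - x * y * cz
  have hzero : (1 - x) * ((1 - y) * (1 - z)) = 0 := by
    linear_combination hsum + hprod + e2
  rw [hzero] at hev
  refine ⟨?_, ?_⟩
  · have h1 : (((1 - C).det : ℤ) : ℂ) = 0 := by
      rw [← hev]
      have : (Matrix.scalar (Fin 3) (1 : ℂ) - CC) = (Int.castRingHom ℂ).mapMatrix (1 - C) := by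
        rw [map_sub, map_one, map_one, hCC']
      rw [this, ← RingHom.map_det]
      rfl
    have h2 : (1 - C).det = 0 := by exact_mod_cast h1
    rw [← neg_sub, Matrix.det_neg, h2, mul_zero]
  · rcases mul_eq_zero.1 hzero with h | h
    · refine trace_bound hy hz ?_
      rw [hsum]
      linear_combination h
    · rcases mul_eq_zero.1 h with h | h
      · refine trace_bound hx hz ?_
        rw [hsum]
        linear_combination h
      · refine trace_bound hx hy ?_
        rw [hsum]
        linear_combination h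

theorem main (C : M3) (hdet : C.det = 1)
    (h : ∀ z : ℂ, (C.map (fun x : ℤ => (x : ℂ))).charpoly.IsRoot z → ‖z‖ = 1) : IsCm C := by
  obtain ⟨h1, ht1, ht2⟩ := spectral C hdet h
  obtain ⟨P, hP, r₁, r₂, p, q, r, s, hCP⟩ := fix3 C h1
  have hadj : P * P.adjugate = 1 := by rw [Matrix.mul_adjugate, hP, one_smul]
  have hC : C = P * !![1, r₁, r₂; 0, p, q; 0, r, s] * P.adjugate := by
    rw [← hCP, mul_assoc, hadj, mul_one]
  have hdet' : p * s - q * r = 1 := by
    have h2 := congrArg Matrix.det hCP
    rw [Matrix.det_mul, Matrix.det_mul, hdet, hP] at h2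
    simp only [Matrix.det_fin_three, Matrix.of_apply, Matrix.cons_val', Matrix.cons_val_zero,
      Matrix.cons_val_one, Matrix.cons_val, Matrix.cons_val_fin_one] at h2
    linear_combination -h2
  have htr : C.trace = 1 + (p + s) := by
    rw [hC, Matrix.trace_mul_comm, ← mul_assoc, Matrix.adjugate_mul, hP, one_smul, one_mul,
      Matrix.trace_fin_three]
    simp only [Matrix.of_apply, Matrix.cons_val', Matrix.cons_val_zero,
      Matrix.cons_val_one, Matrix.cons_val, Matrix.cons_val_fin_one]
    ring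
  refine of_conj (Or.inl hP) hCP ?_
  have hcase : p + s = 2 * 1 ∨ p + s = 2 * (-1) ∨ (p + s = 1 ∨ p + s = 0 ∨ p + s = -1) := by
    omega
  rcases hcase with h3 | h3 | h3
  · obtain ⟨x, y, a, b, m, hab, e1, e2, e3, e4⟩ := tri 1 p q r s (by ring) hdet' h3
    refine of_conj (P := !![1, 0, 0; 0, x, -b; 0, y, a])
      (C' := !![1, r₁ * x + r₂ * y, -(r₁ * b) + r₂ * a; 0, 1, m; 0, 0, 1]) (Or.inl ?_) ?_ (uni _ _ _)
    · simp only [Matrix.det_fin_three, Matrix.of_apply, Matrix.cons_val', Matrix.cons_val_zero,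
        Matrix.cons_val_one, Matrix.cons_val, Matrix.cons_val_fin_one]
      linear_combination hab
    · ext i j
      fin_cases i <;> fin_cases j <;>
        simp [Matrix.mul_apply, Fin.sum_univ_three]
      · linear_combination e1
      · linear_combination e3
      · linear_combination e2
      · linear_combination e4
  · obtain ⟨x, y, a, b, m, hab, e1, e2, e3, e4⟩ := tri (-1) p q r s (by ring) hdet' h3
    refine of_conj (P := !![1, 0, 0; 0, x, -b; 0, y, a])
      (C' := !![1, r₁ * x + r₂ * y, -(r₁ * b) + r₂ * a; 0, -1, m; 0, 0, -1]) (Or.inl ?_) ?_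
      (neg _ _ _)
    · simp only [Matrix.det_fin_three, Matrix.of_apply, Matrix.cons_val', Matrix.cons_val_zero,
        Matrix.cons_val_one, Matrix.cons_val, Matrix.cons_val_fin_one]
      linear_combination hab
    · ext i j
      fin_cases i <;> fin_cases j <;>
        simp [Matrix.mul_apply, Fin.sum_univ_three]
      · linear_combination e1
      · linear_combination e3
      · linear_combination e2
      · linear_combination e4
  · exact elliptic r₁ r₂ p q r s hdet' h3

end Pool.Agent.IntComm.Q3
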