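import Pool.Agent.Work.MP_584b0c_al.Q3.Base

/-!
# Commutators in `GL_3(Z)`: reductions
-/

set_option autoImplicit false

namespace Pool.Agent.IntComm.Q3

open Matrix

theorem gcd2 (x y : ℤ) : ∃ g x₁ y₁ a b : ℤ, x = g * x₁ ∧ y = g * y₁ ∧ a * x₁ + b * y₁ = 1 := by
  by_cases h : (Int.gcd x y : ℤ) = 0
  · have h0 : Int.gcd x y = 0 := by exact_mod_cast h
    obtain ⟨hx, hy⟩ := Int.gcd_eq_zero_iff.1 h0
    exact ⟨0, 1, 0, 1, 0, by rw [hx]; ring, by rw [hy]; ring, by ring⟩
  · obtain ⟨x₁, hx⟩ := Int.gcd_dvd_left x y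
    obtain ⟨y₁, hy⟩ := Int.gcd_dvd_right x y
    refine ⟨Int.gcd x y, x₁, y₁, Int.gcdA x y, Int.gcdB x y, hx, hy, ?_⟩
    have hb := Int.gcd_eq_gcd_ab x y
    have h1 : (Int.gcd x y : ℤ) * (Int.gcdA x y * x₁ + Int.gcdB x y * y₁)
        = (Int.gcd x y : ℤ) * 1 := by
      linear_combination (-1 : ℤ) * hb - Int.gcdA x y * hx - Int.gcdB x y * hy
    exact mul_left_cancel₀ h h1

/-- a matrix with eigenvalue one is conjugate to a matrix with first column `e₁` -/
theorem fix3 (C : M3) (h : (C - 1).det = 0) : ∃ P : M3, P.det = 1 ∧ ∃ r₁ r₂ p q r s : ℤ,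
    C * P = P * !![1, r₁, r₂; 0, p, q; 0, r, s] := by
  obtain ⟨v, hv0, hv⟩ := Matrix.exists_mulVec_eq_zero_iff.2 h
  obtain ⟨g, x₁, y₁, a, b, hx, hy, hab⟩ := gcd2 (v 0) (v 1)
  obtain ⟨e, g₁, z₁, c, d, hg, hz, hcd⟩ := gcd2 g (v 2)
  have he : e ≠ 0 := by
    intro he
    apply hv0
    rw [he, zero_mul] at hg hz
    rw [hg, zero_mul] at hx hy
    funext i
    fin_cases i
    · exact hx
    · exact hy
    · exact hz
  set P : M3 := !![g₁ * x₁, -b, -(d * x₁); g₁ * y₁, a, -(d * y₁); z₁, 0, c] with hP
  have hdet : P.det = 1 := by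
    rw [hP]
    simp only [Matrix.det_fin_three, Matrix.of_apply, Matrix.cons_val', Matrix.cons_val_zero,
      Matrix.cons_val_one, Matrix.cons_val, Matrix.cons_val_fin_one]
    linear_combination (c * g₁ + d * z₁) * hab + hcd
  have hvw : ∀ i, v i = e * P i 0 := by
    intro i
    fin_cases i
    · show v 0 = e * (g₁ * x₁)
      rw [hx, hg]; ring
    · show v 1 = e * (g₁ * y₁)
      rw [hy, hg]; ring
    · show v 2 = e * z₁
      rw [hz]
  have hCv : ∀ i, (C * P) i 0 = P i 0 := by
    intro i
    have h1 := congrFun hv i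
    rw [Matrix.sub_mulVec, Matrix.one_mulVec, Pi.sub_apply, Pi.zero_apply, sub_eq_zero] at h1
    have h2 : (C *ᵥ v) i = e * (C * P) i 0 := by
      rw [Matrix.mulVec, dotProduct, Matrix.mul_apply, Finset.mul_sum]
      refine Finset.sum_congr rfl ?_
      intro j _
      rw [hvw j]
      ring
    rw [h2, hvw i] at h1
    exact mul_left_cancel₀ he h1
  have hadj : P.adjugate * P = 1 := by rw [Matrix.adjugate_mul, hdet, one_smul]
  have hadj' : P * P.adjugate = 1 := by rw [Matrix.mul_adjugate, hdet, one_smul]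
  set C' : M3 := P.adjugate * (C * P) with hC'
  have hcol : ∀ i, C' i 0 = (1 : M3) i 0 := by
    intro i
    rw [hC', ← hadj, Matrix.mul_apply, Matrix.mul_apply]
    exact Finset.sum_congr rfl (fun j _ => by rw [hCv j])
  have h00 : C' 0 0 = 1 := hcol 0
  have h10 : C' 1 0 = 0 := hcol 1
  have h20 : C' 2 0 = 0 := hcol 2
  refine ⟨P, hdet, C' 0 1, C' 0 2, C' 1 1, C' 1 2, C' 2 1, C' 2 2, ?_⟩
  have e1 : C * P = P * C' := by
    rw [hC', ← mul_assoc, hadj', one_mul]
  have e2 := Matrix.eta_fin_three C'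
  rw [h00, h10, h20] at e2
  rw [e1]
  exact congrArg (fun M => P * M) e2

/-- triangular form of a matrix of size two with a double eigenvalue -/
theorem tri (ε p q r s : ℤ) (hε : ε * ε = 1) (hdet : p * s - q * r = 1) (htr : p + s = 2 * ε) :
    ∃ x y a b m : ℤ, a * x + b * y = 1 ∧ p * x + q * y = ε * x ∧ r * x + s * y = ε * y ∧
      -(p * b) + q * a = x * m - ε * b ∧ -(r * b) + s * a = y * m + ε * a := by
  obtain ⟨x, y, a, b, hab, h1, h2⟩ : ∃ x y a b : ℤ, a * x + b * y = 1 ∧
      p * x + q * y = ε * x ∧ r * x + s * y = ε * y := by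
    obtain ⟨g, x, y, a, b, hx, hy, hab⟩ := gcd2 q (ε - p)
    by_cases hg : g = 0
    · rw [hg, zero_mul] at hx hy
      refine ⟨0, 1, 0, 1, by ring, by rw [hx]; ring, ?_⟩
      linear_combination htr + hy
    · refine ⟨x, y, a, b, hab, ?_, ?_⟩
      · have h := hx
        have h' := hy
        have : p * x + q * y - ε * x = 0 := by
          rw [h]
          linear_combination (-x) * h'
        linear_combination this
      · have : g * (r * x + s * y) = g * (ε * y) := by
          linear_combination (-r) * hx + (ε - s) * hy - hdet + hε + ε * htr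
        exact mul_left_cancel₀ hg this
  refine ⟨x, y, a, b, a * (-(p * b) + q * a) + b * (-(r * b) + s * a), hab, h1, h2, ?_, ?_⟩
  · have hδ : x * (-(r * b) + s * a) - y * (-(p * b) + q * a) = ε := by
      linear_combination (p + s - ε) * hab + htr - a * h1 - b * h2
    linear_combination (-(-(p * b) + q * a)) * hab - b * hδ
  · have hδ : x * (-(r * b) + s * a) - y * (-(p * b) + q * a) = ε := by
      linear_combination (p + s - ε) * hab + htr - a * h1 - b * h2
    linear_combination (-(-(r * b) + s * a)) * hab + a * hδ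

/-- binary forms of discriminant `-3` and `-4` represent `1` or `-1` -/
theorem form (n : ℕ) : ∀ A B C : ℤ, A.natAbs ≤ n →
    (B * B - 4 * (A * C) = -3 ∨ B * B - 4 * (A * C) = -4) →
    ∃ x y : ℤ, A * (x * x) + B * (x * y) + C * (y * y) = 1 ∨
      A * (x * x) + B * (x * y) + C * (y * y) = -1 := by
  induction n with
  | zero =>
    intro A B C hA hD
    have hA0 : A = 0 := by omega
    rw [hA0] at hD
    have := mul_self_nonneg B
    exfalso
    rcases hD with h | h <;> linarith
  | succ n ih =>
    intro A B C hA hD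
    by_cases hn : A.natAbs ≤ n
    · exact ih A B C hn hD
    have hAn : A.natAbs = n + 1 := by omega
    by_cases hn0 : n = 0
    · refine ⟨1, 0, ?_⟩
      have : A = 1 ∨ A = -1 := by omega
      rcases this with h | h
      · left; rw [h]; ring
      · right; rw [h]; ring
    have hA2 : 2 ≤ |A| := by
      rw [Int.abs_eq_natAbs, hAn]
      push_cast
      omega
    have hA0 : A ≠ 0 := by
      intro h
      rw [h, abs_zero] at hA2
      omega
    obtain ⟨k, hk⟩ : ∃ k : ℤ, |B + 2 * A * k| ≤ |A| := by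
      have hpos : 0 < 2 * |A| := by omega
      have h1 := Int.emod_nonneg B hpos.ne'
      have h2 := Int.emod_lt_of_pos B hpos
      have h3 := Int.emod_add_mul_ediv B (2 * |A|)
      obtain ⟨σ, hσ⟩ : ∃ σ : ℤ, |A| = A * σ := by
        rcases abs_cases A with h | h
        · exact ⟨1, by rw [h.1]; ring⟩
        · exact ⟨-1, by rw [h.1]; ring⟩
      by_cases hle : B % (2 * |A|) ≤ |A|
      · refine ⟨-(σ * (B / (2 * |A|))), ?_⟩
        have e : B + 2 * A * -(σ * (B / (2 * |A|))) = B % (2 * |A|) := by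
          have h4 : 2 * A * (σ * (B / (2 * |A|))) = 2 * |A| * (B / (2 * |A|)) := by
            rw [hσ]; ring
          linear_combination (-1 : ℤ) * h4 - h3
        rw [e, abs_of_nonneg h1]
        exact hle
      · refine ⟨-(σ * (B / (2 * |A|))) - σ, ?_⟩
        have e : B + 2 * A * (-(σ * (B / (2 * |A|))) - σ) = B % (2 * |A|) - 2 * |A| := by
          have h4 : 2 * A * (σ * (B / (2 * |A|))) = 2 * |A| * (B / (2 * |A|)) := by
            rw [hσ]; ring
          linear_combination (-1 : ℤ) * h4 - h3 + 2 * hσ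
        rw [e, abs_le]
        constructor
        · omega
        · have := abs_nonneg A
          omega
    set B' := B + 2 * A * k with hB'
    set C' := A * (k * k) + B * k + C with hC'
    have hD' : B' * B' - 4 * (A * C') = B * B - 4 * (A * C) := by
      rw [hB', hC']; ring
    have hC'n : C'.natAbs ≤ n := by
      have h1 : B' * B' ≤ A * A := by
        rw [← abs_mul_abs_self B', ← abs_mul_abs_self A]
        exact mul_self_le_mul_self (abs_nonneg _) hk
      have h2 : 4 * (A * C') ≤ A * A + 4 := by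
        rcases hD with h | h <;> linarith
      have h2' : 0 < 4 * (A * C') := by
        have := mul_self_nonneg B'
        rcases hD with h | h <;> linarith
      have h3 : |A| * |C'| = A * C' := by
        rw [← abs_mul]
        exact abs_of_pos (by linarith)
      have h4 : |C'| < |A| := by
        by_contra hcon
        have hcon' : |A| ≤ |C'| := not_lt.1 hcon
        have h5 : |A| * |A| ≤ |A| * |C'| := mul_le_mul_of_nonneg_left hcon' (abs_nonneg _)
        rw [h3, abs_mul_abs_self] at h5
        have h6 : 2 * 2 ≤ |A| * |A| := mul_le_mul hA2 hA2 (by norm_num) (abs_nonneg _)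
        rw [abs_mul_abs_self] at h6
        linarith
      rw [Int.abs_eq_natAbs, Int.abs_eq_natAbs, hAn] at h4
      omega
    obtain ⟨x, y, hxy⟩ := ih C' B' A hC'n (by
      have e : B' * B' - 4 * (C' * A) = B * B - 4 * (A * C) := by
        rw [← hD']; ring
      rw [e]
      exact hD)
    refine ⟨y + k * x, x, ?_⟩
    have e : A * ((y + k * x) * (y + k * x)) + B * ((y + k * x) * x) + C * (x * x)
        = C' * (x * x) + B' * (x * y) + A * (y * y) := by
      rw [hB', hC']; ring
    rw [e]
    exact hxy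

end Pool.Agent.IntComm.Q3
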