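import Pool.Agent.Work.MP_584b0c_al.Q3.Red

/-!
# Commutators in `GL_3(Z)`: unipotent matrices
-/

set_option autoImplicit false

namespace Pool.Agent.IntComm.Q3

open Matrix

theorem residue (a m s : ℤ) (hpar : ¬(2 ∣ a ∧ 2 ∣ m)) (p : ℕ) (hp : p.Prime) :
    ∃ ρ : ℕ, ((p : ℤ) ∣ a → ¬(p : ℤ) ∣ (ρ : ℤ)) ∧ ((p : ℤ) ∣ m → ¬(p : ℤ) ∣ s - (ρ : ℤ)) := by
  have hp1 : ¬(p : ℤ) ∣ 1 := by
    intro h
    have h' : p ∣ 1 := by exact_mod_cast h
    exact hp.one_lt.ne' (Nat.dvd_one.1 h')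
  by_cases ha : (p : ℤ) ∣ a
  · by_cases hm : (p : ℤ) ∣ m
    · have hp2 : ¬(p : ℤ) ∣ 2 := by
        intro h
        have h' : p ∣ 2 := by exact_mod_cast h
        have : p = 2 := (Nat.prime_dvd_prime_iff_eq hp Nat.prime_two).1 h'
        rw [this] at ha hm
        exact hpar ⟨ha, hm⟩
      by_cases hs : (p : ℤ) ∣ s - 1
      · refine ⟨2, fun _ => hp2, fun _ h => ?_⟩
        have : (p : ℤ) ∣ (s - 1) - (s - ((2 : ℕ) : ℤ)) := dvd_sub hs h
        rw [show (s - 1) - (s - ((2 : ℕ) : ℤ)) = 1 by push_cast; ring] at this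
        exact hp1 this
      · exact ⟨1, fun _ => by exact_mod_cast hp1, fun _ h => hs (by exact_mod_cast h)⟩
    · exact ⟨1, fun _ => by exact_mod_cast hp1, fun h => absurd h hm⟩
  · by_cases hs : (p : ℤ) ∣ s
    · refine ⟨1, fun h => absurd h ha, fun _ h => ?_⟩
      have : (p : ℤ) ∣ s - (s - ((1 : ℕ) : ℤ)) := dvd_sub hs h
      rw [show s - (s - ((1 : ℕ) : ℤ)) = 1 by push_cast; ring] at this
      exact hp1 this
    · exact ⟨0, fun h => absurd h ha, fun _ h => hs (by simpa using h)⟩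

theorem choose_phi (a m s : ℤ) (ha : a ≠ 0) (hm : m ≠ 0) (hpar : ¬(2 ∣ a ∧ 2 ∣ m)) :
    ∃ φ : ℤ, IsCoprime φ a ∧ IsCoprime (s - φ) m := by
  classical
  have hex : ∀ p : ℕ, ∃ ρ : ℕ, p.Prime → ((p : ℤ) ∣ a → ¬(p : ℤ) ∣ (ρ : ℤ)) ∧
      ((p : ℤ) ∣ m → ¬(p : ℤ) ∣ s - (ρ : ℤ)) := by
    intro p
    by_cases hp : p.Prime
    · obtain ⟨ρ, hρ⟩ := residue a m s hpar p hp
      exact ⟨ρ, fun _ => hρ⟩
    · exact ⟨0, fun h => absurd h hp⟩
  choose ρ hρ using hex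
  have hn : (a * m).natAbs ≠ 0 := Int.natAbs_ne_zero.2 (mul_ne_zero ha hm)
  obtain ⟨k, hk⟩ := Nat.chineseRemainderOfFinset ρ (fun p => p) (a * m).natAbs.primeFactors
    (fun p hp => (Nat.prime_of_mem_primeFactors hp).ne_zero)
    (fun p hp q hq hpq => (Nat.coprime_primes (Nat.prime_of_mem_primeFactors hp)
      (Nat.prime_of_mem_primeFactors hq)).2 hpq)
  have key : ∀ p : ℕ, p.Prime → ((p : ℤ) ∣ a ∨ (p : ℤ) ∣ m) → (p : ℤ) ∣ (k : ℤ) - (ρ p : ℤ) := by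
    intro p hp h
    have hmem : p ∈ (a * m).natAbs.primeFactors := by
      refine Nat.mem_primeFactors.2 ⟨hp, ?_, hn⟩
      have : (p : ℤ) ∣ a * m := by
        rcases h with h | h
        · exact Dvd.dvd.mul_right h m
        · exact Dvd.dvd.mul_left h a
      exact Int.natCast_dvd.1 this
    have h1 : k ≡ ρ p [MOD p] := hk p hmem
    have h2 := Nat.modEq_iff_dvd.1 h1.symm
    exact h2
  refine ⟨k, ?_, ?_⟩
  · rw [Int.isCoprime_iff_gcd_eq_one]
    by_contra hg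
    obtain ⟨p, hp, h1, h2⟩ := Nat.Prime.not_coprime_iff_dvd.1 hg
    have h1' : (p : ℤ) ∣ (k : ℤ) := Int.natCast_dvd.2 h1
    have h2' : (p : ℤ) ∣ a := Int.natCast_dvd.2 h2
    apply (hρ p hp).1 h2'
    have := dvd_sub h1' (key p hp (Or.inl h2'))
    rwa [sub_sub_cancel] at this
  · rw [Int.isCoprime_iff_gcd_eq_one]
    by_contra hg
    obtain ⟨p, hp, h1, h2⟩ := Nat.Prime.not_coprime_iff_dvd.1 hg
    have h1' : (p : ℤ) ∣ s - (k : ℤ) := Int.natCast_dvd.2 h1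
    have h2' : (p : ℤ) ∣ m := Int.natCast_dvd.2 h2
    apply (hρ p hp).2 h2'
    have := dvd_add h1' (key p hp (Or.inr h2'))
    rwa [sub_add_sub_cancel] at this

/-- every upper unitriangular integral matrix of size three is a commutator in `GL_3(Z)` -/
theorem uni (a b m : ℤ) : IsCm !![1, a, b; 0, 1, m; 0, 0, 1] := by
  by_cases ha : a = 0
  · subst ha
    obtain ⟨g, x, y, u, v, hx, hy, huv⟩ := gcd2 b m
    refine of_conj (P := !![x, -v, 0; y, u, 0; 0, 0, 1]) (C' := !![1, 0, g; 0, 1, 0; 0, 0, 1])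
      (Or.inl ?_) ?_ (cm_e13 g)
    · simp only [Matrix.det_fin_three, Matrix.of_apply, Matrix.cons_val', Matrix.cons_val_zero,
        Matrix.cons_val_one, Matrix.cons_val, Matrix.cons_val_fin_one]
      linear_combination huv
    · rw [hx, hy]
      ext i j
      fin_cases i <;> fin_cases j <;>
        simp [Matrix.mul_apply, Fin.sum_univ_three] <;> ring
  by_cases hm : m = 0
  · subst hm
    obtain ⟨g, x, y, u, v, hx, hy, huv⟩ := gcd2 a b
    refine of_conj (P := !![1, 0, 0; 0, u, -y; 0, v, x]) (C' := !![1, g, 0; 0, 1, 0; 0, 0, 1])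
      (Or.inl ?_) ?_ (cm_e12 g)
    · simp only [Matrix.det_fin_three, Matrix.of_apply, Matrix.cons_val', Matrix.cons_val_zero,
        Matrix.cons_val_one, Matrix.cons_val, Matrix.cons_val_fin_one]
      linear_combination huv
    · rw [hx, hy]
      ext i j
      fin_cases i <;> fin_cases j <;>
        simp [Matrix.mul_apply, Fin.sum_univ_three]
      · linear_combination g * huv
      · ring
  by_cases hpar : 2 ∣ a ∧ 2 ∣ m
  · obtain ⟨⟨α, hα⟩, ⟨μ, hμ⟩⟩ := hpar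
    rw [hα, hμ]
    exact cm_even α μ b
  · obtain ⟨φ, ⟨u, v, h1⟩, ⟨α, β, h2⟩⟩ := choose_phi a m (b - a * m) ha hm hpar
    exact cm_trans a m b φ (b - a * m - φ) u v α β (by ring) h1 h2

end Pool.Agent.IntComm.Q3
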